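import Pool.Agent.V11121.Orb.Card

/-!
# The two polynomials and their signs
-/

namespace V11121.Orb

open Finset

/-- Falling factorial. -/
noncomputable def DP (n : ℕ) (x : ℝ) : ℝ := ∏ j ∈ range n, (x - j)

/-- Rising factorial divided by the factorial. -/
noncomputable def RB (b : ℕ) (y : ℝ) : ℝ := (∏ i ∈ range b, (y + i)) / (b.factorial : ℝ)

noncomputable def PP (s b e : ℕ) (x : ℝ) : ℝ :=
  ∑ π : Setoid (Fin s), DP (nc π) x * ((x - nc π) ^ b * (wt π x) ^ e)

noncomputable def OO (s b e : ℕ) (x : ℝ) : ℝ :=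
  ∑ π : Setoid (Fin s), DP (nc π) x * (RB b (x - nc π) * (wt π x) ^ e)

lemma DP_nat (q n : ℕ) : DP n (q : ℝ) = (q.descFactorial n : ℝ) := by
  induction n with
  | zero => simp [DP]
  | succ n ih =>
    rw [DP, Finset.prod_range_succ, ← DP, ih, Nat.descFactorial_succ]
    by_cases h : n ≤ q
    · rw [Nat.cast_mul, Nat.cast_sub h]
      ring
    · have h2 : q.descFactorial n = 0 := Nat.descFactorial_eq_zero_iff_lt.mpr (by omega)
      rw [h2]
      simp

lemma RB_nat (n b : ℕ) : RB b (n : ℝ) = (n.multichoose b : ℝ) := by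
  have h1 : (∏ i ∈ range b, ((n : ℝ) + i)) = ((n.ascFactorial b : ℕ) : ℝ) := by
    rw [Nat.ascFactorial_eq_prod_range, Nat.cast_prod]
    simp
  rw [RB, h1, Nat.ascFactorial_eq_factorial_mul_choose', Nat.multichoose_eq, Nat.cast_mul]
  field_simp

lemma PP_nat (s b e q : ℕ) : PP s b e (q : ℝ) = (Nat.card ((Gm s b e).Coloring (Fin q)) : ℝ) := by
  rw [card_col, PP]
  apply Finset.sum_congr rfl
  intro π _
  rw [DP_nat]

lemma OO_nat (s b e q : ℕ) : OO s b e (q : ℝ) =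
    (Nat.card (Quot (OrbRel (Gm s b e) (twHom s b e).range q)) : ℝ) := by
  rw [card_orb, OO]
  apply Finset.sum_congr rfl
  intro π _
  rw [DP_nat]
  by_cases h : nc π ≤ q
  · rw [← Nat.cast_sub h, RB_nat]
  · have h2 : q.descFactorial (nc π) = 0 := Nat.descFactorial_eq_zero_iff_lt.mpr (by omega)
    rw [h2]
    simp

/-! ### Facts on partitions -/

lemma nc_le_s {s : ℕ} (π : Setoid (Fin s)) : nc π ≤ s := by
  have := Nat.card_le_card_of_surjective (Quotient.mk π) Quotient.mk_surjective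
  simpa [nc] using this

lemma one_le_nc {s : ℕ} (hs : 0 < s) (π : Setoid (Fin s)) : 1 ≤ nc π := by
  have : Nonempty (Quotient π) := ⟨Quotient.mk π ⟨0, hs⟩⟩
  exact Nat.card_pos

lemma nc_top {s : ℕ} (hs : 0 < s) : nc (⊤ : Setoid (Fin s)) = 1 := by
  rw [nc, Nat.card_eq_one_iff_unique]
  refine ⟨⟨fun x y => ?_⟩, ⟨Quotient.mk _ ⟨0, hs⟩⟩⟩
  induction x using Quotient.ind with | _ a => ?_
  induction y using Quotient.ind with | _ b => ?_
  exact Quotient.sound (show (⊤ : Setoid (Fin s)) a b from trivial)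

lemma nc_bot {s : ℕ} : nc (⊥ : Setoid (Fin s)) = s := by
  have h : Function.Bijective (Quotient.mk (⊥ : Setoid (Fin s))) :=
    ⟨fun a b h => Quotient.exact h, Quotient.mk_surjective⟩
  have := Nat.card_eq_of_bijective _ h
  rw [nc, ← this]
  simp

lemma two_le_nc {s : ℕ} (hs : 0 < s) {π : Setoid (Fin s)} (h : π ≠ ⊤) : 2 ≤ nc π := by
  by_contra hc
  have h1 : nc π = 1 := by have := one_le_nc hs π; omega
  rw [nc, Nat.card_eq_one_iff_unique] at h1
  apply h
  rw [eq_top_iff]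
  intro a b _
  exact Quotient.exact (h1.1.elim (Quotient.mk π a) (Quotient.mk π b))

lemma exists_rel {s : ℕ} {π : Setoid (Fin s)} (h : π ≠ ⊥) : ∃ i j, i ≠ j ∧ π i j := by
  by_contra hc
  push Not at hc
  apply h
  rw [eq_bot_iff]
  intro a b hab
  by_contra hne
  exact hc a b hne hab

/-! ### Bounds -/

lemma abs_DP_le {s n : ℕ} (hs : 1 ≤ s) (hn : n ≤ s) {x : ℝ}
    (h : ∀ j : ℕ, j < n → |x - j| ≤ s) : |DP n x| ≤ (s : ℝ) ^ s := by
  have h1 : (1 : ℝ) ≤ s := by exact_mod_cast hs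
  rw [DP, Finset.abs_prod]
  calc ∏ j ∈ range n, |x - j| ≤ ∏ _j ∈ range n, (s : ℝ) :=
        Finset.prod_le_prod (fun _ _ => abs_nonneg _) (fun j hj => h j (Finset.mem_range.mp hj))
    _ = (s : ℝ) ^ n := by rw [Finset.prod_const, Finset.card_range]
    _ ≤ (s : ℝ) ^ s := pow_le_pow_right₀ h1 hn

lemma DP_nonneg {s n : ℕ} (hn : n ≤ s) {x : ℝ} (hx : (s : ℝ) - 1 ≤ x) : 0 ≤ DP n x := by
  apply Finset.prod_nonneg
  intro j hj
  have h1 : j + 1 ≤ s := by have := Finset.mem_range.mp hj; omega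
  have h2 : (j : ℝ) + 1 ≤ s := by exact_mod_cast h1
  linarith

lemma abs_RB_le {s b : ℕ} {y : ℝ} (hy : |y| ≤ s) : |RB b y| ≤ ((b : ℝ) + 1) ^ s := by
  induction b with
  | zero => simp [RB]
  | succ b ih =>
    have h1 : RB (b + 1) y = RB b y * ((y + b) / (b + 1)) := by
      rw [RB, RB, Finset.prod_range_succ, Nat.factorial_succ]
      push_cast
      field_simp
    rw [h1, abs_mul]
    have hb : (0 : ℝ) ≤ b := Nat.cast_nonneg b
    have h2 : |(y + b) / (b + 1)| ≤ ((b + 2) / (b + 1) : ℝ) ^ s := by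
      have h3 : |(y + b) / (b + 1)| ≤ 1 + s * (1 / ((b : ℝ) + 1)) := by
        rw [abs_div, abs_of_pos (by linarith : (0 : ℝ) < b + 1), div_le_iff₀ (by linarith)]
        have h4 : |y + b| ≤ s + b := (abs_add_le y b).trans (by
          rw [abs_of_nonneg hb]; linarith)
        have h5 : (1 + s * (1 / ((b : ℝ) + 1))) * (b + 1) = b + 1 + s := by
          field_simp
        rw [h5]
        linarith
      have h6 : (1 : ℝ) + s * (1 / ((b : ℝ) + 1)) ≤ (1 + 1 / ((b : ℝ) + 1)) ^ s := by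
        apply one_add_mul_le_pow
        have : (0 : ℝ) ≤ 1 / ((b : ℝ) + 1) := by positivity
        linarith
      have h7 : (1 + 1 / ((b : ℝ) + 1)) = (b + 2) / (b + 1) := by
        field_simp
        ring
      rw [h7] at h6
      exact h3.trans h6
    calc |RB b y| * |(y + b) / (b + 1)| ≤ ((b : ℝ) + 1) ^ s * ((b + 2) / (b + 1) : ℝ) ^ s :=
          mul_le_mul ih h2 (abs_nonneg _) (by positivity)
      _ = (((b + 1 : ℕ) : ℝ) + 1) ^ s := by
          rw [← mul_pow]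
          congr 1
          push_cast
          field_simp
          ring

lemma RB_lower {b : ℕ} (hb : 3 ≤ b) : 1 / (b : ℝ) ^ 4 ≤ RB b (-(3 / 2)) := by
  induction b, hb using Nat.le_induction with
  | base =>
    norm_num [RB, Finset.prod_range_succ, Nat.factorial]
  | succ b hb ih =>
    have h1 : RB (b + 1) (-(3 / 2)) = RB b (-(3 / 2)) * ((b - 3 / 2) / (b + 1)) := by
      rw [RB, RB, Finset.prod_range_succ, Nat.factorial_succ]
      push_cast
      field_simp
      ring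
    have hb3 : (3 : ℝ) ≤ b := by exact_mod_cast hb
    rw [h1]
    have h2 : 1 / (b : ℝ) ^ 4 * ((b - 3 / 2) / (b + 1)) ≤
        RB b (-(3 / 2)) * ((b - 3 / 2) / (b + 1)) := by
      apply mul_le_mul_of_nonneg_right ih
      apply div_nonneg <;> linarith
    refine le_trans ?_ h2
    rw [div_mul_div_comm, one_mul, div_le_div_iff₀ (by positivity) (by positivity)]
    push_cast
    have h3 : (b : ℝ) ^ 4 * (b + 1) ≤ (b - 3 / 2) * (b + 1) ^ 4 := by
      have h4 : (b - 3 / 2) * ((b : ℝ) + 1) ^ 4 - (b : ℝ) ^ 4 * (b + 1) =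
          (b + 1) * (3 / 2 * (b : ℝ) ^ 3 - 3 / 2 * (b : ℝ) ^ 2 - 7 / 2 * b - 3 / 2) := by ring
      have h5 : 0 ≤ (3 / 2 * (b : ℝ) ^ 3 - 3 / 2 * (b : ℝ) ^ 2 - 7 / 2 * b - 3 / 2) := by
        nlinarith [mul_nonneg (by linarith : (0 : ℝ) ≤ b - 3) (by positivity : (0 : ℝ) ≤ (b : ℝ) ^ 2),
          mul_nonneg (by linarith : (0 : ℝ) ≤ b - 3) (by linarith : (0 : ℝ) ≤ (b : ℝ))]
      nlinarith [mul_nonneg (by linarith : (0 : ℝ) ≤ (b : ℝ) + 1) h5]
    linarith

lemma DP_bot {s : ℕ} (hs : 2 ≤ s) : DP s ((s : ℝ) - 3 / 2) ≤ -(1 / 4) := by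
  obtain ⟨t, rfl⟩ : ∃ t, s = t + 2 := ⟨s - 2, by omega⟩
  rw [DP, Finset.prod_range_succ, Finset.prod_range_succ]
  have h1 : (1 : ℝ) ≤ ∏ j ∈ range t, (((t + 2 : ℕ) : ℝ) - 3 / 2 - j) := by
    calc (1 : ℝ) = ∏ _j ∈ range t, (1 : ℝ) := by simp
      _ ≤ _ := by
        apply Finset.prod_le_prod (fun _ _ => zero_le_one)
        intro j hj
        have h2 : j + 1 ≤ t := Finset.mem_range.mp hj
        have h3 : (j : ℝ) + 1 ≤ t := by exact_mod_cast h2
        push_cast
        linarith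
  have h4 : (((t + 2 : ℕ) : ℝ) - 3 / 2 - (t : ℕ)) = 1 / 2 := by push_cast; ring
  have h5 : (((t + 2 : ℕ) : ℝ) - 3 / 2 - ((t + 1 : ℕ) : ℝ)) = -(1 / 2) := by push_cast; ring
  rw [h4, h5]
  linarith

/-! ### Weights -/

lemma wt_nonneg {s : ℕ} (π : Setoid (Fin s)) {x : ℝ} (hx : 2 ≤ x) : 0 ≤ wt π x := by
  classical
  apply Finset.prod_nonneg
  intro p _
  have : 0 ≤ (x - 1) * (x - 2) := mul_nonneg (by linarith) (by linarith)
  split_ifs <;> linarith

lemma wt_pos {s : ℕ} (π : Setoid (Fin s)) {x : ℝ} (hx : 2 < x) : 0 < wt π x := by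
  classical
  apply Finset.prod_pos
  intro p _
  have : 0 < (x - 1) * (x - 2) := mul_pos (by linarith) (by linarith)
  split_ifs <;> linarith

lemma wt_top {s : ℕ} (x : ℝ) : wt (⊤ : Setoid (Fin s)) x = ((x - 1) * (x - 2)) ^ (s * s) := by
  classical
  rw [wt, Finset.prod_congr rfl (g := fun _ => (x - 1) * (x - 2)), Finset.prod_const,
    Finset.card_univ, Fintype.card_prod, Fintype.card_fin]
  intro p _
  rw [if_pos (by exact trivial), add_zero]

lemma wt_le {s : ℕ} (π : Setoid (Fin s)) {x : ℝ} (hx : 3 ≤ x) :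
    wt π x ≤ 2 ^ (s * s) * ((x - 1) * (x - 2)) ^ (s * s) := by
  classical
  have h1 : 1 ≤ (x - 1) * (x - 2) := by nlinarith
  rw [wt, ← mul_pow]
  calc _ ≤ ∏ _p : Fin s × Fin s, (2 * ((x - 1) * (x - 2))) := by
        apply Finset.prod_le_prod
        · intro p _
          split_ifs <;> linarith
        · intro p _
          split_ifs <;> linarith
    _ = _ := by rw [Finset.prod_const, Finset.card_univ, Fintype.card_prod, Fintype.card_fin]

lemma wt_bot_ratio {s : ℕ} {π : Setoid (Fin s)} (hπ : π ≠ ⊥) {x : ℝ} (hx : 2 < x) :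
    wt π x ≤ wt (⊥ : Setoid (Fin s)) x *
      (((x - 1) * (x - 2)) / ((x - 1) * (x - 2) + 1)) := by
  classical
  obtain ⟨i, j, hij, hr⟩ := exists_rel hπ
  have hm : 0 < (x - 1) * (x - 2) := mul_pos (by linarith) (by linarith)
  set m := (x - 1) * (x - 2) with hmd
  rw [wt, wt, ← Finset.mul_prod_erase univ _ (Finset.mem_univ (i, j)),
    ← Finset.mul_prod_erase univ (fun p : Fin s × Fin s =>
      ((x - 1) * (x - 2) + if (⊥ : Setoid (Fin s)) p.1 p.2 then 0 else 1)) (Finset.mem_univ (i, j))]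
  have hb : ¬ (⊥ : Setoid (Fin s)) i j := hij
  simp only [← hmd]
  rw [if_pos hr, if_neg hb, add_zero]
  have h1 : ∏ p ∈ univ.erase (i, j), (m + if π p.1 p.2 then 0 else 1) ≤
      ∏ p ∈ univ.erase (i, j), (m + if (⊥ : Setoid (Fin s)) p.1 p.2 then 0 else 1) := by
    apply Finset.prod_le_prod
    · intro p _
      split_ifs <;> linarith
    · intro p _
      by_cases h2 : (⊥ : Setoid (Fin s)) p.1 p.2
      · have h3 : π p.1 p.2 := by
          have h4 : p.1 = p.2 := h2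
          rw [h4]
        rw [if_pos h2, if_pos h3]
      · rw [if_neg h2]
        split_ifs <;> linarith
  have h2 : (m + 1) * (∏ p ∈ univ.erase (i, j), (m + if (⊥ : Setoid (Fin s)) p.1 p.2 then 0 else 1))
      * (m / (m + 1)) =
      m * (∏ p ∈ univ.erase (i, j), (m + if (⊥ : Setoid (Fin s)) p.1 p.2 then 0 else 1)) := by
    field_simp
  rw [h2]
  exact mul_le_mul_of_nonneg_left h1 hm.le

end V11121.Orb
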