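import Pool.Agent.V11121.Orb.Count

/-!
# Counting colourings and orbits of colourings
-/

namespace V11121.Orb

open Finset

open scoped Classical in
instance setoidFinite (α : Type) [Finite α] : Finite (Setoid α) :=
  Finite.of_injective (fun π : Setoid α => (fun a b => π a b : α → α → Prop)) (by
    intro π ρ h
    ext a b
    exact iff_of_eq (congrFun (congrFun h a) b))

noncomputable instance setoidFintype (s : ℕ) : Fintype (Setoid (Fin s)) := Fintype.ofFinite _

/-- The number of classes. -/
noncomputable def nc {s : ℕ} (π : Setoid (Fin s)) : ℕ := Nat.card (Quotient π)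

/-- Functions with a given kernel are embeddings of the quotient. -/
def kerEquiv {s q : ℕ} (π : Setoid (Fin s)) :
    {φ : Fin s → Fin q // Setoid.ker φ = π} ≃ (Quotient π ↪ Fin q) where
  toFun φ := ⟨Quotient.lift φ.1 (fun a b h => by
      have h2 : Setoid.ker φ.1 a b := by rw [φ.2]; exact h
      exact h2), by
      intro x y
      induction x using Quotient.ind with | _ a => ?_
      induction y using Quotient.ind with | _ b => ?_
      intro h
      have h2 : Setoid.ker φ.1 a b := h
      rw [φ.2] at h2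
      exact Quotient.sound h2⟩
  invFun f := ⟨fun i => f (Quotient.mk π i), by
      ext a b
      rw [Setoid.ker_def]
      constructor
      · intro h
        exact Quotient.exact (f.injective h)
      · intro h
        exact congrArg f (Quotient.sound h)⟩
  left_inv φ := by
    apply Subtype.ext
    rfl
  right_inv f := by
    ext x
    induction x using Quotient.ind with | _ a => ?_
    rfl

open scoped Classical in
lemma card_ker {s q : ℕ} (π : Setoid (Fin s)) :
    (univ.filter (fun φ : Fin s → Fin q => Setoid.ker φ = π)).card = q.descFactorial (nc π) := by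
  rw [← Fintype.card_subtype, Fintype.card_congr (kerEquiv π), Fintype.card_embedding_eq, nc,
    Nat.card_eq_fintype_card, Fintype.card_fin]

lemma sum_ker {s q : ℕ} (g : Setoid (Fin s) → ℝ) :
    ∑ φ : Fin s → Fin q, g (Setoid.ker φ) = ∑ π, (q.descFactorial (nc π) : ℝ) * g π := by
  classical
  rw [← Finset.sum_fiberwise univ (fun φ : Fin s → Fin q => Setoid.ker φ)]
  apply Finset.sum_congr rfl
  intro π _
  rw [← card_ker, Finset.sum_congr rfl (g := fun _ => g π), Finset.sum_const, nsmul_eq_mul]
  intro φ hφ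
  rw [(Finset.mem_filter.mp hφ).2]

open scoped Classical in
/-- The weight of the inner vertices. -/
noncomputable def wt {s : ℕ} (π : Setoid (Fin s)) (x : ℝ) : ℝ :=
  ∏ p : Fin s × Fin s, ((x - 1) * (x - 2) + if π p.1 p.2 then 0 else 1)

lemma card_Tc {s q : ℕ} (φ : Fin s → Fin q) :
    Nat.card (Tc φ) = q - nc (Setoid.ker φ) := by
  classical
  have h1 : Nat.card (Tc φ) = ((Set.range φ).toFinsetᶜ).card := by
    rw [Nat.card_eq_fintype_card, Fintype.card_subtype]
    congr 1
    ext x
    simp
  rw [h1, Finset.card_compl, Fintype.card_fin, nc,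
    Nat.card_congr (Setoid.quotientKerEquivRange φ), Nat.card_eq_fintype_card, Set.toFinset_card]

lemma nc_le {s q : ℕ} (φ : Fin s → Fin q) : nc (Setoid.ker φ) ≤ q := by
  rw [nc, Nat.card_congr (Setoid.quotientKerEquivRange φ)]
  have := Nat.card_le_card_of_injective (fun x : Set.range φ => (x : Fin q)) Subtype.val_injective
  simpa using this

lemma card_Wc {q : ℕ} (α β : Fin q) :
    (Nat.card (Wc α β) : ℝ) = ((q : ℝ) - 1) * (q - 2) + if α = β then 0 else 1 := by
  classical
  have h1 : (Nat.card (Wc α β) : ℝ) =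
      ∑ x : Fin q, ∑ y : Fin q, if (α ≠ x ∧ x ≠ y ∧ y ≠ β) then (1 : ℝ) else 0 := by
    rw [Nat.card_eq_fintype_card, Fintype.card_subtype, Finset.card_filter, Nat.cast_sum,
      Fintype.sum_prod_type]
    simp
  have h2 : ∀ x y : Fin q, (if (α ≠ x ∧ x ≠ y ∧ y ≠ β) then (1 : ℝ) else 0) =
      (1 - if α = x then 1 else 0) * (1 - (if x = y then 1 else 0) - (if y = β then 1 else 0)
        + (if x = y then (if x = β then 1 else 0) else 0)) := by
    intro x y
    by_cases h1 : α = x <;> by_cases h2 : x = y <;> by_cases h3 : y = β <;> simp_all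
  have h3 : ∀ x : Fin q, ∑ y : Fin q, (if (α ≠ x ∧ x ≠ y ∧ y ≠ β) then (1 : ℝ) else 0) =
      (1 - if α = x then 1 else 0) * ((q : ℝ) - 2 + if x = β then 1 else 0) := by
    intro x
    rw [Finset.sum_congr rfl (fun y _ => h2 x y), ← Finset.mul_sum]
    congr 1
    rw [Finset.sum_add_distrib, Finset.sum_sub_distrib, Finset.sum_sub_distrib]
    simp
    ring
  have h4 : ∀ x : Fin q, (1 - if α = x then (1 : ℝ) else 0) * ((q : ℝ) - 2 + if x = β then 1 else 0)
      = ((q : ℝ) - 2) + (if x = β then 1 else 0) - (if α = x then ((q : ℝ) - 2) else 0)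
        - (if α = x then (if α = β then 1 else 0) else 0) := by
    intro x
    by_cases h1 : α = x
    · subst h1
      by_cases h2 : α = β <;> simp [h2]
    · simp [h1]
  rw [h1, Finset.sum_congr rfl (fun x _ => h3 x), Finset.sum_congr rfl (fun x _ => h4 x),
    Finset.sum_sub_distrib, Finset.sum_sub_distrib, Finset.sum_add_distrib]
  by_cases h : α = β
  · simp [h]
    ring
  · simp [h]
    ring

lemma wt_eq {s e q : ℕ} (φ : Fin s → Fin q) :
    ((Nat.card (∀ p : (Fin s × Fin s) × Fin e, Wc (φ p.1.1) (φ p.1.2)) : ℕ) : ℝ) =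
      (wt (Setoid.ker φ) q) ^ e := by
  classical
  rw [Nat.card_pi, Nat.cast_prod, Fintype.prod_prod_type, wt, ← Finset.prod_pow]
  apply Finset.prod_congr rfl
  intro p _
  show ∏ _y : Fin e, ((Nat.card (Wc (φ p.1) (φ p.2)) : ℕ) : ℝ) = _
  rw [Finset.prod_const, Finset.card_univ, Fintype.card_fin, card_Wc]
  congr 3

/-- The number of colourings. -/
theorem card_col (s b e q : ℕ) :
    (Nat.card ((Gm s b e).Coloring (Fin q)) : ℝ) =
      ∑ π : Setoid (Fin s), (q.descFactorial (nc π) : ℝ) * (((q : ℝ) - nc π) ^ b * (wt π q) ^ e) := by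
  classical
  rw [← sum_ker (fun π => (((q : ℝ) - nc π) ^ b * (wt π q) ^ e)), Nat.card_congr (colEquiv s b e q),
    Nat.card_sigma, Nat.cast_sum]
  apply Finset.sum_congr rfl
  intro φ _
  rw [Nat.card_prod, Nat.cast_mul, wt_eq, Nat.card_pi, Finset.prod_const, Finset.card_univ,
    Fintype.card_fin, card_Tc, Nat.cast_pow, Nat.cast_sub (nc_le φ)]

/-- Two functions with the same multiset of values differ by a permutation of the index set. -/
lemma perm_of_map_eq {b : ℕ} {α : Type} (f g : Fin b → α)
    (h : (univ : Finset (Fin b)).val.map f = (univ : Finset (Fin b)).val.map g) :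
    ∃ σ : Equiv.Perm (Fin b), ∀ i, f i = g (σ i) := by
  classical
  have hc : ∀ a, Fintype.card {i // f i = a} = Fintype.card {i // g i = a} := by
    intro a
    have h2 := congrArg (Multiset.count a) h
    rw [Multiset.count_map, Multiset.count_map] at h2
    rw [Fintype.card_subtype, Fintype.card_subtype]
    have h3 : ∀ k : Fin b → α, (Multiset.filter (fun i => a = k i) (univ : Finset (Fin b)).val).card
        = (univ.filter (fun i => k i = a)).card := by
      intro k
      rw [Finset.card_def, Finset.filter_val]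
      congr 1
      apply Multiset.filter_congr
      intro i _
      exact eq_comm
    rw [h3, h3] at h2
    exact h2
  refine ⟨(Equiv.sigmaFiberEquiv f).symm.trans ((Equiv.sigmaCongrRight
    (fun a => Fintype.equivOfCardEq (hc a))).trans (Equiv.sigmaFiberEquiv g)), ?_⟩
  intro i
  exact (((Fintype.equivOfCardEq (hc (f i))) ⟨i, rfl⟩).2).symm

/-- The orbit relation of a group of automorphisms on the colourings. -/
def OrbRel {V : Type} (Γ : SimpleGraph V) (G : Subgroup (Γ ≃g Γ)) (q : ℕ)
    (c c' : Γ.Coloring (Fin q)) : Prop := ∃ g ∈ G, ∀ v, c' v = c (g v)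

/-- The multiset description of an orbit. -/
abbrev Otg (s b e q : ℕ) :=
  Σ φ : Fin s → Fin q, Sym (Tc φ) b × (∀ p : (Fin s × Fin s) × Fin e, Wc (φ p.1.1) (φ p.1.2))

/-- The multiset of values. -/
def toSym {b : ℕ} {α : Type} (f : Fin b → α) : Sym α b :=
  ⟨(univ : Finset (Fin b)).val.map f, by simp⟩

lemma toSym_surj {b : ℕ} {α : Type} : Function.Surjective (toSym : (Fin b → α) → Sym α b) := by
  intro m
  obtain ⟨l, hl⟩ := Quot.exists_rep m.1
  have hlen : l.length = b := by
    have := m.2
    rw [← hl] at this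
    simpa using this
  subst hlen
  refine ⟨l.get, ?_⟩
  apply Subtype.ext
  rw [← hl]
  show (univ : Finset (Fin l.length)).val.map l.get = (l : Multiset α)
  rw [Fin.univ_val_map, List.ofFn_get]

/-- The orbit map. -/
def orbMap {s b e q : ℕ} (c : (Gm s b e).Coloring (Fin q)) : Otg s b e q :=
  ⟨(colEquiv s b e q c).1, toSym (colEquiv s b e q c).2.1, (colEquiv s b e q c).2.2⟩

lemma orbMap_surj {s b e q : ℕ} :
    Function.Surjective (orbMap : (Gm s b e).Coloring (Fin q) → Otg s b e q) := by
  rintro ⟨φ, m, w⟩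
  obtain ⟨f, rfl⟩ := toSym_surj m
  refine ⟨(colEquiv s b e q).symm ⟨φ, f, w⟩, ?_⟩
  rfl

lemma orbMap_eq_iff {s b e q : ℕ} (c c' : (Gm s b e).Coloring (Fin q)) :
    orbMap c = orbMap c' ↔ OrbRel (Gm s b e) (twHom s b e).range q c c' := by
  obtain ⟨⟨φ, f, w⟩, rfl⟩ := (colEquiv s b e q).symm.surjective c
  obtain ⟨⟨φ', f', w'⟩, rfl⟩ := (colEquiv s b e q).symm.surjective c'
  constructor
  · intro h
    have h1 : (⟨φ, toSym f, w⟩ : Otg s b e q) = ⟨φ', toSym f', w'⟩ := h
    obtain ⟨rfl, h2⟩ := Sigma.mk.inj_iff.mp h1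
    have h3 := eq_of_heq h2
    have h4 : toSym f = toSym f' := congrArg Prod.fst h3
    have h6 : w = w' := congrArg Prod.snd h3
    subst h6
    have h5 : (univ : Finset (Fin b)).val.map f = (univ : Finset (Fin b)).val.map f' :=
      congrArg Subtype.val h4
    obtain ⟨σ, hσ⟩ := perm_of_map_eq f' f h5.symm
    refine ⟨tw σ, ⟨σ, rfl⟩, ?_⟩
    rintro (i | β | ⟨p, t⟩)
    · rfl
    · exact congrArg Subtype.val (hσ β)
    · cases t <;> rfl
  · rintro ⟨g, ⟨σ, rfl⟩, hg⟩
    have h1 : φ' = φ := by
      funext i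
      exact hg (Sum.inl i)
    subst h1
    have h2 : w' = w := by
      funext p
      apply Subtype.ext
      exact Prod.ext (hg (Sum.inr (Sum.inr (p, false)))) (hg (Sum.inr (Sum.inr (p, true))))
    subst h2
    have h3 : f' = f ∘ σ := by
      funext β
      apply Subtype.ext
      exact hg (Sum.inr (Sum.inl β))
    subst h3
    show (⟨φ', toSym f, w'⟩ : Otg s b e q) = ⟨φ', toSym (f ∘ σ), w'⟩
    have h4 : toSym f = toSym (f ∘ σ) := by
      apply Subtype.ext
      show (univ : Finset (Fin b)).val.map f = (univ : Finset (Fin b)).val.map (f ∘ σ)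
      rw [← Multiset.map_map]
      congr 1
      have := Finset.map_univ_equiv σ
      have h5 := congrArg Finset.val this
      rw [Finset.map_val] at h5
      exact h5.symm
    rw [h4]

/-- The number of orbits of colourings. -/
theorem card_orb (s b e q : ℕ) :
    (Nat.card (Quot (OrbRel (Gm s b e) (twHom s b e).range q)) : ℝ) =
      ∑ π : Setoid (Fin s), (q.descFactorial (nc π) : ℝ) *
        (((q - nc π).multichoose b : ℝ) * (wt π q) ^ e) := by
  classical
  have h1 : Nat.card (Quot (OrbRel (Gm s b e) (twHom s b e).range q)) = Nat.card (Otg s b e q) := by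
    apply Nat.card_eq_of_bijective
      (Quot.lift orbMap (fun c c' h => (orbMap_eq_iff c c').mpr h))
    constructor
    · intro x y
      induction x using Quot.ind with | _ c => ?_
      induction y using Quot.ind with | _ c' => ?_
      intro h
      exact Quot.sound ((orbMap_eq_iff c c').mp h)
    · intro y
      obtain ⟨c, rfl⟩ := orbMap_surj y
      exact ⟨Quot.mk _ c, rfl⟩
  rw [h1, ← sum_ker (fun π => ((((q - nc π).multichoose b : ℕ) : ℝ) * (wt π q) ^ e)),
    Nat.card_sigma, Nat.cast_sum]
  apply Finset.sum_congr rfl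
  intro φ _
  rw [Nat.card_prod, Nat.cast_mul, wt_eq]
  congr 2
  rw [Nat.card_eq_fintype_card, Sym.card_sym_eq_multichoose, ← Nat.card_eq_fintype_card, card_Tc]

end V11121.Orb
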