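import Mathlib

/-!
# A family of graphs with a twin class: colourings and orbits of colourings
-/

namespace V11121.Orb

open Finset

/-- Vertices: core vertices, twins, and two inner vertices for every `(i, j, t)`. -/
abbrev Vt (s b e : ℕ) := Fin s ⊕ (Fin b ⊕ (((Fin s × Fin s) × Fin e) × Bool))

variable {s b e : ℕ}

/-- Directed version of the adjacency. -/
def dirR : Vt s b e → Vt s b e → Prop
  | Sum.inl _, Sum.inr (Sum.inl _) => True
  | Sum.inl i, Sum.inr (Sum.inr (p, false)) => p.1.1 = i
  | Sum.inr (Sum.inr (p, false)), Sum.inr (Sum.inr (p', true)) => p = p'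
  | Sum.inr (Sum.inr (p, true)), Sum.inl j => p.1.2 = j
  | _, _ => False

/-- The graph. -/
def Gm (s b e : ℕ) : SimpleGraph (Vt s b e) := SimpleGraph.fromRel dirR

/-- The automorphism that permutes the twins. -/
def tw (σ : Equiv.Perm (Fin b)) : Gm s b e ≃g Gm s b e where
  toEquiv := Equiv.sumCongr (Equiv.refl _) (Equiv.sumCongr σ (Equiv.refl _))
  map_rel_iff' := by
    intro x y
    simp only [Gm, SimpleGraph.fromRel_adj]
    rcases x with i | β | ⟨p, t⟩ <;> rcases y with i' | β' | ⟨p', t'⟩ <;>
      (try cases t) <;> (try cases t') <;> simp [dirR]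

/-- Permutations of the twins as automorphisms. -/
def twHom (s b e : ℕ) : Equiv.Perm (Fin b) →* (Gm s b e ≃g Gm s b e) where
  toFun := tw
  map_one' := by
    ext x
    rcases x with i | β | ⟨p, t⟩ <;> rfl
  map_mul' σ τ := by
    ext x
    rcases x with i | β | ⟨p, t⟩ <;> rfl

/-- The allowed colours of a twin. -/
abbrev Tc {q : ℕ} (φ : Fin s → Fin q) := {x : Fin q // ∀ i, φ i ≠ x}

/-- The allowed colour pairs of the two inner vertices between colours `α` and `β`. -/
abbrev Wc {q : ℕ} (α β : Fin q) := {y : Fin q × Fin q // α ≠ y.1 ∧ y.1 ≠ y.2 ∧ y.2 ≠ β}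

/-- The structured description of the colourings. -/
abbrev Tgt (s b e q : ℕ) :=
  Σ φ : Fin s → Fin q, (Fin b → Tc φ) × (∀ p : (Fin s × Fin s) × Fin e, Wc (φ p.1.1) (φ p.1.2))

/-- From a structured description to a colouring. -/
def toCol {q : ℕ} (x : Tgt s b e q) : (Gm s b e).Coloring (Fin q) :=
  SimpleGraph.Coloring.mk
    (fun v => match v with
      | Sum.inl i => x.1 i
      | Sum.inr (Sum.inl β) => (x.2.1 β).1
      | Sum.inr (Sum.inr (p, false)) => (x.2.2 p).1.1
      | Sum.inr (Sum.inr (p, true)) => (x.2.2 p).1.2)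
    (by
      have key : ∀ u v : Vt s b e, dirR u v →
          (match u with
            | Sum.inl i => x.1 i
            | Sum.inr (Sum.inl β) => (x.2.1 β).1
            | Sum.inr (Sum.inr (p, false)) => (x.2.2 p).1.1
            | Sum.inr (Sum.inr (p, true)) => (x.2.2 p).1.2) ≠
          (match v with
            | Sum.inl i => x.1 i
            | Sum.inr (Sum.inl β) => (x.2.1 β).1
            | Sum.inr (Sum.inr (p, false)) => (x.2.2 p).1.1
            | Sum.inr (Sum.inr (p, true)) => (x.2.2 p).1.2) := by
        intro u v h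
        rcases u with i | β | ⟨p, t⟩ <;> rcases v with i' | β' | ⟨p', t'⟩ <;>
          (try cases t) <;> (try cases t') <;> simp only [dirR] at h
        · exact (x.2.1 β').2 i
        · subst h
          exact (x.2.2 p').2.1
        · subst h
          exact (x.2.2 p).2.2.2
        · subst h
          exact (x.2.2 p).2.2.1
      intro u v h
      rcases h with ⟨_, h | h⟩
      · exact key u v h
      · exact (key v u h).symm)

lemma adj_of_dir {u v : Vt s b e} (hne : u ≠ v) (h : dirR u v) : (Gm s b e).Adj u v :=
  ⟨hne, Or.inl h⟩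

/-- From a colouring to its structured description. -/
def ofCol {q : ℕ} (c : (Gm s b e).Coloring (Fin q)) : Tgt s b e q :=
  ⟨fun i => c (Sum.inl i),
    fun β => ⟨c (Sum.inr (Sum.inl β)), fun i => c.valid (adj_of_dir (by simp) trivial)⟩,
    fun p => ⟨(c (Sum.inr (Sum.inr (p, false))), c (Sum.inr (Sum.inr (p, true)))),
      c.valid (adj_of_dir (by simp) (by simp [dirR])),
      c.valid (adj_of_dir (by simp) (by simp [dirR])),
      c.valid (adj_of_dir (by simp) (by simp [dirR]))⟩⟩

/-- Colourings are the same as structured descriptions. -/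
def colEquiv (s b e q : ℕ) : (Gm s b e).Coloring (Fin q) ≃ Tgt s b e q where
  toFun := ofCol
  invFun := toCol
  left_inv c := by
    ext v
    rcases v with i | β | ⟨p, t⟩
    · rfl
    · rfl
    · cases t <;> rfl
  right_inv x := by
    rcases x with ⟨φ, f, w⟩
    rfl

end V11121.Orb
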