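import Pool.Agent.V11121.Orb.Sign

/-!
# Choice of the parameters, and the polynomials
-/

namespace V11121.Orb

open Finset Filter Topology

/-- Parameters exist. -/
lemma exists_params {k : ℕ} (hk : 2 ≤ k) : ∃ b e : ℕ, Even b ∧ 3 ≤ b ∧
    Mn (2 * k) * ((2 * k : ℕ) : ℝ) ^ (2 * k) *
      ((2 ^ (2 * k * (2 * k))) ^ e * (1 - 1 / ((2 * k : ℕ) : ℝ)) ^ b) < 1 ∧
    4 * Mn (2 * k) * ((2 * k : ℕ) : ℝ) ^ (2 * k) * ((b : ℝ) + 1) ^ (2 * k) * (b : ℝ) ^ 4 *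
      (((((2 * k : ℕ) : ℝ) - 3 / 2 - 1) * (((2 * k : ℕ) : ℝ) - 3 / 2 - 2)) /
        (((((2 * k : ℕ) : ℝ) - 3 / 2 - 1) * (((2 * k : ℕ) : ℝ) - 3 / 2 - 2)) + 1)) ^ e < 1 := by
  set s := 2 * k with hs
  have hs4 : (4 : ℝ) ≤ ((s : ℕ) : ℝ) := by exact_mod_cast (by omega : 4 ≤ s)
  set m := (((s : ℕ) : ℝ) - 3 / 2 - 1) * (((s : ℕ) : ℝ) - 3 / 2 - 2) with hm
  have hmpos : 0 < m := mul_pos (by linarith) (by linarith)
  set ρ := m / (m + 1) with hρ
  have hρ0 : 0 < ρ := by positivity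
  have hρ1 : ρ < 1 := by rw [hρ, div_lt_one (by linarith)]; linarith
  set θ : ℝ := 1 - 1 / (s : ℝ) with hθ
  have hθ0 : 0 ≤ θ := by
    rw [hθ, sub_nonneg, div_le_one (by linarith)]; linarith
  have hθ1 : θ < 1 := by
    have : 0 < 1 / (s : ℝ) := by positivity
    linarith
  obtain ⟨L0, hL0⟩ := exists_pow_lt_of_lt_one (show (0 : ℝ) < 1 / (2 * 2 ^ (s * s)) by positivity)
    (show θ ^ 2 < 1 by nlinarith)
  set L := L0 + 1 with hL
  have hL1 : (θ ^ 2) ^ L ≤ 1 / (2 * 2 ^ (s * s)) := by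
    rw [hL, pow_succ]
    have h1 : (θ ^ 2) ^ L0 * θ ^ 2 ≤ (θ ^ 2) ^ L0 * 1 :=
      mul_le_mul_of_nonneg_left (by nlinarith) (by positivity)
    linarith
  have hhalf : (2 : ℝ) ^ (s * s) * (θ ^ 2) ^ L ≤ 1 / 2 := by
    have h1 := mul_le_mul_of_nonneg_left hL1 (show (0 : ℝ) ≤ 2 ^ (s * s) by positivity)
    have h2 : (2 : ℝ) ^ (s * s) * (1 / (2 * 2 ^ (s * s))) = 1 / 2 := by field_simp
    rwa [h2] at h1
  have t1 : Tendsto (fun e : ℕ => Mn s * (s : ℝ) ^ s * (1 / 2 : ℝ) ^ e) atTop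
      (𝓝 (Mn s * (s : ℝ) ^ s * 0)) :=
    (tendsto_pow_atTop_nhds_zero_of_lt_one (by norm_num) (by norm_num)).const_mul _
  have t2 : Tendsto (fun e : ℕ => (4 * Mn s * (s : ℝ) ^ s * (2 * L + 1) ^ s * (2 * L) ^ 4) *
      ((e : ℝ) ^ (s + 4) / (1 / ρ) ^ e)) atTop
      (𝓝 ((4 * Mn s * (s : ℝ) ^ s * (2 * L + 1) ^ s * (2 * L) ^ 4) * 0)) :=
    (tendsto_pow_const_div_const_pow_of_one_lt (s + 4)
      (by rw [one_lt_div hρ0]; exact hρ1)).const_mul _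
  rw [mul_zero] at t1 t2
  obtain ⟨e, he1, he2, he3⟩ := ((t1.eventually_lt_const one_pos).and
    ((t2.eventually_lt_const one_pos).and (eventually_ge_atTop 2))).exists
  have hM0 : 0 ≤ Mn s := Nat.cast_nonneg _
  have heR : (1 : ℝ) ≤ e := by exact_mod_cast (by omega : 1 ≤ e)
  refine ⟨2 * (L * e), e, ⟨L * e, by ring⟩, ?_, ?_, ?_⟩
  · have : 1 * 2 ≤ L * e := Nat.mul_le_mul (by omega) he3
    omega
  · refine lt_of_le_of_lt ?_ he1
    apply mul_le_mul_of_nonneg_left _ (by positivity)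
    have h1 : (2 ^ (s * s)) ^ e * θ ^ (2 * (L * e)) = (2 ^ (s * s) * (θ ^ 2) ^ L) ^ e := by
      rw [mul_pow, ← pow_mul, ← pow_mul, ← pow_mul, mul_assoc]
    rw [h1]
    exact pow_le_pow_left₀ (by positivity) hhalf e
  · refine lt_of_le_of_lt ?_ he2
    have hb : (((2 * (L * e) : ℕ) : ℝ)) = 2 * L * e := by push_cast; ring
    rw [hb]
    have h1 : (2 * (L : ℝ) * e + 1) ^ s ≤ ((2 * L + 1) * e) ^ s := by
      apply pow_le_pow_left₀ (by positivity)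
      nlinarith
    have h2 : ((e : ℝ) ^ (s + 4) / (1 / ρ) ^ e) = e ^ s * e ^ 4 * ρ ^ e := by
      have h3 : (1 / ρ) ^ e * ρ ^ e = 1 := by
        rw [← mul_pow, one_div_mul_cancel hρ0.ne', one_pow]
      have h4 : (1 / ρ) ^ e ≠ 0 := by positivity
      rw [pow_add, div_eq_iff h4]
      calc (e : ℝ) ^ s * e ^ 4 = e ^ s * e ^ 4 * ((1 / ρ) ^ e * ρ ^ e) := by rw [h3, mul_one]
        _ = _ := by ring
    rw [h2]
    calc 4 * Mn s * (s : ℝ) ^ s * (2 * (L : ℝ) * e + 1) ^ s * (2 * L * e) ^ 4 * ρ ^ e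
        ≤ 4 * Mn s * (s : ℝ) ^ s * ((2 * L + 1) * e) ^ s * (2 * L * e) ^ 4 * ρ ^ e := by
          gcongr
      _ = _ := by
          rw [mul_pow, mul_pow (2 * (L : ℝ)) (e : ℝ) 4]
          ring

open Polynomial in
open scoped Classical in
/-- The chromatic polynomial. -/
noncomputable def pPoly (s b e : ℕ) : ℝ[X] :=
  ∑ π : Setoid (Fin s), (∏ j ∈ range (nc π), (X - C (j : ℝ))) * ((X - C (nc π : ℝ)) ^ b *
    (∏ p : Fin s × Fin s, ((X - C 1) * (X - C 2) + C (if π p.1 p.2 then (0 : ℝ) else 1))) ^ e)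

open Polynomial in
open scoped Classical in
/-- The orbital chromatic polynomial. -/
noncomputable def oPoly (s b e : ℕ) : ℝ[X] :=
  ∑ π : Setoid (Fin s), (∏ j ∈ range (nc π), (X - C (j : ℝ))) *
    ((C (1 / (b.factorial : ℝ)) * ∏ i ∈ range b, ((X - C (nc π : ℝ)) + C (i : ℝ))) *
    (∏ p : Fin s × Fin s, ((X - C 1) * (X - C 2) + C (if π p.1 p.2 then (0 : ℝ) else 1))) ^ e)

lemma pPoly_eval (s b e : ℕ) (x : ℝ) : (pPoly s b e).eval x = PP s b e x := by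
  rw [pPoly, PP, Polynomial.eval_finsetSum]
  apply Finset.sum_congr rfl
  intro π _
  simp only [Polynomial.eval_mul, Polynomial.eval_pow, Polynomial.eval_sub, Polynomial.eval_X,
    Polynomial.eval_C, Polynomial.eval_prod, Polynomial.eval_add]
  rfl

lemma oPoly_eval (s b e : ℕ) (x : ℝ) : (oPoly s b e).eval x = OO s b e x := by
  rw [oPoly, OO, Polynomial.eval_finsetSum]
  apply Finset.sum_congr rfl
  intro π _
  simp only [Polynomial.eval_mul, Polynomial.eval_pow, Polynomial.eval_sub, Polynomial.eval_X,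
    Polynomial.eval_C, Polynomial.eval_prod, Polynomial.eval_add]
  rw [DP, RB, wt]
  ring

end V11121.Orb
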