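import Pool.Agent.V11121.Orb.Ana

/-!
# Signs of the two polynomials
-/

namespace V11121.Orb

open Finset

/-- Number of partitions. -/
noncomputable def Mn (s : ℕ) : ℝ := (Fintype.card (Setoid (Fin s)) : ℝ)

lemma PP_pos_right {s b e : ℕ} (hs : 4 ≤ s) (hb : Even b) {x : ℝ} (hx : (s : ℝ) - 1 ≤ x) :
    0 < PP s b e x := by
  have hs' : (4 : ℝ) ≤ s := by exact_mod_cast hs
  apply Finset.sum_pos'
  · intro π _
    apply mul_nonneg (DP_nonneg (nc_le_s π) hx)
    apply mul_nonneg (hb.pow_nonneg _)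
    exact pow_nonneg (wt_nonneg π (by linarith)) _
  · refine ⟨⊤, Finset.mem_univ _, ?_⟩
    rw [nc_top (by omega)]
    have h1 : DP 1 x = x := by simp [DP]
    rw [h1]
    apply mul_pos (by linarith)
    apply mul_pos
    · apply pow_pos
      push_cast
      linarith
    · exact pow_pos (wt_pos _ (by linarith)) _

lemma PP_pos_mid {k b e : ℕ} (hk : 2 ≤ k)
    (hA : Mn (2 * k) * ((2 * k : ℕ) : ℝ) ^ (2 * k) *
      ((2 ^ (2 * k * (2 * k))) ^ e * (1 - 1 / ((2 * k : ℕ) : ℝ)) ^ b) < 1)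
    {x : ℝ} (hx : (k : ℝ) + 1 ≤ x) (hx2 : x ≤ ((2 * k : ℕ) : ℝ) - 1) :
    0 < PP (2 * k) b e x := by
  classical
  have hk' : (2 : ℝ) ≤ k := by exact_mod_cast hk
  have hc : ((2 * k : ℕ) : ℝ) = 2 * k := by push_cast; ring
  set S : ℝ := ((2 * k : ℕ) : ℝ) with hS
  set m := (x - 1) * (x - 2) with hm
  set θ : ℝ := 1 - 1 / S with hθ
  have hSpos : 0 < S := by rw [hc]; linarith
  have hθ0 : 0 ≤ θ := by
    rw [hθ, sub_nonneg, div_le_one hSpos]; linarith
  set n := 2 * k with hn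
  have hm1 : 1 ≤ m := by rw [hm]; nlinarith
  have htop : DP (nc (⊤ : Setoid (Fin n))) x * ((x - nc (⊤ : Setoid (Fin n))) ^ b *
      (wt (⊤ : Setoid (Fin n)) x) ^ e) = x * ((x - 1) ^ b * (m ^ (n * n)) ^ e) := by
    rw [nc_top (by omega), wt_top]
    have h1 : DP 1 x = x := by simp [DP]
    rw [h1]
    push_cast
    rfl
  rw [PP, ← Finset.add_sum_erase univ _ (Finset.mem_univ (⊤ : Setoid (Fin n))), htop]
  have hbound : ∀ π ∈ univ.erase (⊤ : Setoid (Fin n)),
      |DP (nc π) x * ((x - nc π) ^ b * (wt π x) ^ e)| ≤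
        S ^ n * ((θ ^ b * (x - 1) ^ b) * ((2 ^ (n * n)) ^ e * (m ^ (n * n)) ^ e)) := by
    intro π hπ
    have hne : π ≠ ⊤ := (Finset.mem_erase.mp hπ).1
    have h2 : (2 : ℝ) ≤ nc π := by exact_mod_cast two_le_nc (by omega) hne
    have h3 : (nc π : ℝ) ≤ S := by rw [hS]; exact_mod_cast nc_le_s π
    rw [abs_mul, abs_mul, abs_pow, abs_pow]
    apply mul_le_mul
    · apply abs_DP_le (by omega) (nc_le_s π)
      intro j hj
      have h4 : (j : ℝ) + 1 ≤ S := by
        rw [hS]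
        exact_mod_cast (lt_of_lt_of_le hj (nc_le_s π))
      have h5 : (0 : ℝ) ≤ j := Nat.cast_nonneg j
      rw [abs_le]
      constructor <;> linarith
    · apply mul_le_mul
      · rw [← mul_pow]
        apply pow_le_pow_left₀ (abs_nonneg _)
        have h6 : θ * (x - 1) = (x - 1) - (x - 1) / S := by
          rw [hθ]; ring
        have h7 : (x - 1) / S ≤ 1 := by
          rw [div_le_one hSpos]; linarith
        rw [h6, abs_le]
        constructor
        · have h8 : (x - 1) / S ≤ (x - 1) - (S - x) := by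
            rw [div_le_iff₀ hSpos]
            nlinarith
          linarith
        · linarith
      · rw [← mul_pow, abs_of_nonneg (wt_nonneg π (by linarith))]
        apply pow_le_pow_left₀ (wt_nonneg π (by linarith))
        exact wt_le π (by linarith)
      · exact pow_nonneg (abs_nonneg _) _
      · apply mul_nonneg (pow_nonneg hθ0 _) (pow_nonneg (by linarith) _)
    · exact mul_nonneg (pow_nonneg (abs_nonneg _) _) (pow_nonneg (abs_nonneg _) _)
    · positivity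
  have hsum : |∑ π ∈ univ.erase (⊤ : Setoid (Fin n)),
      DP (nc π) x * ((x - nc π) ^ b * (wt π x) ^ e)| ≤
      Mn n * (S ^ n * ((θ ^ b * (x - 1) ^ b) * ((2 ^ (n * n)) ^ e * (m ^ (n * n)) ^ e))) := by
    refine (Finset.abs_sum_le_sum_abs _ _).trans ((Finset.sum_le_sum hbound).trans ?_)
    rw [Finset.sum_const, nsmul_eq_mul]
    apply mul_le_mul_of_nonneg_right
    · rw [Mn]
      exact_mod_cast (Finset.card_le_univ _)
    · have : 0 ≤ x - 1 := by linarith
      positivity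
  have hX : 0 < (x - 1) ^ b * (m ^ (n * n)) ^ e := by
    have : 0 < x - 1 := by linarith
    positivity
  have h9 : Mn n * (S ^ n * ((θ ^ b * (x - 1) ^ b) * ((2 ^ (n * n)) ^ e * (m ^ (n * n)) ^ e))) =
      (Mn n * S ^ n * ((2 ^ (n * n)) ^ e * θ ^ b)) * ((x - 1) ^ b * (m ^ (n * n)) ^ e) := by ring
  have h10 : Mn n * (S ^ n * ((θ ^ b * (x - 1) ^ b) * ((2 ^ (n * n)) ^ e * (m ^ (n * n)) ^ e))) <
      x * ((x - 1) ^ b * (m ^ (n * n)) ^ e) := by
    rw [h9]
    apply mul_lt_mul_of_pos_right _ hX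
    linarith
  have h11 := (abs_le.mp hsum).1
  linarith

lemma OO_neg {s b e : ℕ} (hs : 4 ≤ s) (hb : 3 ≤ b) {m : ℝ}
    (hm : m = ((s : ℝ) - 3 / 2 - 1) * ((s : ℝ) - 3 / 2 - 2))
    (hB : 4 * Mn s * (s : ℝ) ^ s * ((b : ℝ) + 1) ^ s * (b : ℝ) ^ 4 * (m / (m + 1)) ^ e < 1) :
    OO s b e ((s : ℝ) - 3 / 2) < 0 := by
  classical
  have hs' : (4 : ℝ) ≤ s := by exact_mod_cast hs
  set x : ℝ := (s : ℝ) - 3 / 2 with hx
  have hx2 : 2 < x := by linarith
  have hmpos : 0 < m := by rw [hm]; exact mul_pos (by linarith) (by linarith)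
  set W := wt (⊥ : Setoid (Fin s)) x with hW
  have hWpos : 0 < W := wt_pos _ hx2
  set ρ := m / (m + 1) with hρ
  have hρ0 : 0 < ρ := by rw [hρ]; positivity
  rw [OO, ← Finset.add_sum_erase univ _ (Finset.mem_univ (⊥ : Setoid (Fin s))), nc_bot]
  have h1 : x - (s : ℝ) = -(3 / 2) := by rw [hx]; ring
  rw [h1]
  have hb4 : (0 : ℝ) < (b : ℝ) ^ 4 := by positivity
  have hbot : DP s x * (RB b (-(3 / 2)) * W ^ e) ≤ -(1 / 4) * (1 / (b : ℝ) ^ 4 * W ^ e) := by
    have h2 : DP s x ≤ -(1 / 4) := DP_bot (by omega)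
    have h3 : 1 / (b : ℝ) ^ 4 * W ^ e ≤ RB b (-(3 / 2)) * W ^ e :=
      mul_le_mul_of_nonneg_right (RB_lower hb) (by positivity)
    have h4 : 0 < 1 / (b : ℝ) ^ 4 * W ^ e := by positivity
    nlinarith [mul_le_mul_of_nonneg_right h2 (le_trans h4.le h3)]
  have hbound : ∀ π ∈ univ.erase (⊥ : Setoid (Fin s)),
      DP (nc π) x * (RB b (x - nc π) * (wt π x) ^ e) ≤
        (s : ℝ) ^ s * (((b : ℝ) + 1) ^ s * (W ^ e * ρ ^ e)) := by
    intro π hπ
    have hne : π ≠ ⊥ := (Finset.mem_erase.mp hπ).1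
    have h2 : (1 : ℝ) ≤ nc π := by exact_mod_cast one_le_nc (by omega) π
    have h3 : (nc π : ℝ) ≤ s := by exact_mod_cast nc_le_s π
    refine (le_abs_self _).trans ?_
    rw [abs_mul, abs_mul, abs_pow]
    apply mul_le_mul
    · apply abs_DP_le (by omega) (nc_le_s π)
      intro j hj
      have h4 : (j : ℝ) + 1 ≤ s := by
        exact_mod_cast (lt_of_lt_of_le hj (nc_le_s π))
      have h5 : (0 : ℝ) ≤ j := Nat.cast_nonneg j
      rw [abs_le]
      constructor <;> linarith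
    · apply mul_le_mul
      · apply abs_RB_le
        rw [abs_le]
        constructor <;> linarith
      · rw [← mul_pow, abs_of_nonneg (wt_nonneg π hx2.le)]
        apply pow_le_pow_left₀ (wt_nonneg π hx2.le)
        have h6 := wt_bot_ratio hne hx2
        rw [hρ, hm]
        exact h6
      · exact pow_nonneg (abs_nonneg _) _
      · positivity
    · exact mul_nonneg (abs_nonneg _) (pow_nonneg (abs_nonneg _) _)
    · positivity
  have hsum : ∑ π ∈ univ.erase (⊥ : Setoid (Fin s)),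
      DP (nc π) x * (RB b (x - nc π) * (wt π x) ^ e) ≤
      Mn s * ((s : ℝ) ^ s * (((b : ℝ) + 1) ^ s * (W ^ e * ρ ^ e))) := by
    refine (Finset.sum_le_sum hbound).trans ?_
    rw [Finset.sum_const, nsmul_eq_mul]
    apply mul_le_mul_of_nonneg_right
    · rw [Mn]
      exact_mod_cast (Finset.card_le_univ _)
    · positivity
  have hkey : Mn s * ((s : ℝ) ^ s * (((b : ℝ) + 1) ^ s * (W ^ e * ρ ^ e))) <
      1 / 4 * (1 / (b : ℝ) ^ 4 * W ^ e) := by
    have h7 : Mn s * ((s : ℝ) ^ s * (((b : ℝ) + 1) ^ s * (W ^ e * ρ ^ e))) =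
        (4 * Mn s * (s : ℝ) ^ s * ((b : ℝ) + 1) ^ s * (b : ℝ) ^ 4 * ρ ^ e) *
          (1 / 4 * (1 / (b : ℝ) ^ 4 * W ^ e)) := by
      field_simp
    rw [h7]
    have h8 : 0 < 1 / 4 * (1 / (b : ℝ) ^ 4 * W ^ e) := by positivity
    nlinarith
  have h9 : DP s x * (RB b (-(3 / 2)) * W ^ e) +
      ∑ π ∈ univ.erase (⊥ : Setoid (Fin s)),
        DP (nc π) x * (RB b (x - nc π) * (wt π x) ^ e) < 0 := by linarith
  exact h9

end V11121.Orb
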